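import Pool.Agent.K3h34.HP.Stm

/-!
# Schwartz-Zippel modulo `p`, and the reduction to monic covers
-/

set_option autoImplicit false

namespace Pool.Agent.K3h34.HP.Fb

open Polynomial Pool.Agent.K3h34.HP
open Pool.Agent.Y214.HB (toK Kind)

theorem evP_eq {n p : ℕ} (a : Fin (n + 1) → ZMod p) (t : MvPolynomial (Fin (n + 1)) ℤ) :
    evP p a t = MvPolynomial.eval a (MvPolynomial.map (Int.castRingHom (ZMod p)) t) := by
  rw [MvPolynomial.eval_map]
  rfl

theorem sz : S_SZ := by
  classical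
  intro n t ht
  obtain ⟨u, hu⟩ := MvPolynomial.ne_zero_iff.mp ht
  refine ⟨max ((t.coeff u).natAbs : ℝ) (t.totalDegree), fun p hp hC => ?_⟩
  have : Fact p.Prime := ⟨hp⟩
  have hp0 : (0 : ℝ) < p := by exact_mod_cast hp.pos
  have hpu : (t.coeff u).natAbs < p := by
    exact_mod_cast lt_of_le_of_lt (le_max_left _ _) hC
  have h0 : MvPolynomial.map (Int.castRingHom (ZMod p)) t ≠ 0 := by
    intro h
    have h1 := congrArg (MvPolynomial.coeff u) h
    rw [MvPolynomial.coeff_map, MvPolynomial.coeff_zero] at h1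
    have h2 : ((t.coeff u : ℤ) : ZMod p) = 0 := h1
    rw [ZMod.intCast_zmod_eq_zero_iff_dvd] at h2
    have h3 := Int.natAbs_dvd_natAbs.mpr h2
    rw [Int.natAbs_natCast] at h3
    exact absurd (Nat.le_of_dvd (Int.natAbs_pos.mpr hu) h3) (not_le.mpr hpu)
  have h1 := MvPolynomial.schwartz_zippel_totalDegree h0 (Finset.univ : Finset (ZMod p))
  have hset : ({a : Fin (n + 1) → ZMod p | evP p a t = 0} : Set _).ncard =
      (Finset.filter (fun f => MvPolynomial.eval f
        (MvPolynomial.map (Int.castRingHom (ZMod p)) t) = 0)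
        (Fintype.piFinset fun _ : Fin (n + 1) => (Finset.univ : Finset (ZMod p)))).card := by
    rw [← Set.ncard_coe_finset]
    congr 1
    ext a
    simp [evP_eq]
  rw [hset]
  rw [Finset.card_univ, ZMod.card] at h1
  have h2 := (NNRat.cast_le (K := ℝ)).mpr h1
  push_cast at h2
  rw [div_le_div_iff₀ (by positivity) hp0] at h2
  have h3 : (((MvPolynomial.map (Int.castRingHom (ZMod p)) t).totalDegree : ℕ) : ℝ) ≤
      (t.totalDegree : ℝ) := by
    exact_mod_cast Finset.sup_mono (MvPolynomial.support_map_subset _ _)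
  have h4 : (((Finset.filter (fun f => MvPolynomial.eval f
        (MvPolynomial.map (Int.castRingHom (ZMod p)) t) = 0)
        (Fintype.piFinset fun _ : Fin (n + 1) => (Finset.univ : Finset (ZMod p)))).card : ℕ) : ℝ) * p
      ≤ t.totalDegree * (p : ℝ) ^ (n + 1) :=
    h2.trans (mul_le_mul_of_nonneg_right h3 (by positivity))
  rw [pow_succ, ← mul_assoc] at h4
  have h5 := le_of_mul_le_mul_right h4 hp0
  refine h5.trans (mul_le_mul_of_nonneg_right (le_max_right _ _) (by positivity))

theorem irr_scale {K : Type} [Field K] {P : K[X]} (hP : Irreducible P) {s : K} (hs : s ≠ 0) :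
    Irreducible (P.scaleRoots s) := by
  have hback : ∀ Q : K[X], (Q.scaleRoots s).scaleRoots s⁻¹ = Q := by
    intro Q
    rw [← scaleRoots_mul, mul_inv_cancel₀ hs, scaleRoots_one]
  have hunit : ∀ (Q : K[X]) (r : K), IsUnit Q → IsUnit (Q.scaleRoots r) := by
    intro Q r hQ
    rw [Polynomial.isUnit_iff_degree_eq_zero] at hQ ⊢
    rw [degree_scaleRoots, hQ]
  constructor
  · intro h
    apply hP.not_isUnit
    have h1 := hunit _ s⁻¹ h
    rwa [hback] at h1
  · intro A B hAB
    have h1 : P = A.scaleRoots s⁻¹ * B.scaleRoots s⁻¹ := by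
      rw [← mul_scaleRoots_of_noZeroDivisors, ← hAB, hback]
    have hback' : ∀ Q : K[X], (Q.scaleRoots s⁻¹).scaleRoots s = Q := by
      intro Q
      rw [← scaleRoots_mul, inv_mul_cancel₀ hs, scaleRoots_one]
    rcases hP.isUnit_or_isUnit h1 with h2 | h2
    · left
      have h3 := hunit _ s h2
      rwa [hback'] at h3
    · right
      have h3 := hunit _ s h2
      rwa [hback'] at h3

theorem irr_norm {n : ℕ} {P : (MvPolynomial (Fin (n + 1)) ℤ)[X]} (h0 : P.leadingCoeff ≠ 0)
    (hP : Irreducible (toK P)) : Irreducible (toK P.integralNormalization) := by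
  have hs : algebraMap (MvPolynomial (Fin (n + 1)) ℤ) (FractionRing (MvPolynomial (Fin (n + 1)) ℤ))
      P.leadingCoeff ≠ 0 := by
    rw [Ne, FaithfulSMul.algebraMap_eq_zero_iff]
    exact h0
  have h1 := congrArg (Polynomial.map (algebraMap (MvPolynomial (Fin (n + 1)) ℤ)
    (FractionRing (MvPolynomial (Fin (n + 1)) ℤ)))) (integralNormalization_mul_C_leadingCoeff P)
  rw [Polynomial.map_mul, map_C, map_scaleRoots _ _ _ hs] at h1
  have h2 := irr_scale hP hs
  unfold toK at h2 ⊢
  rw [← h1] at h2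
  exact (irreducible_mul_isUnit (isUnit_C.mpr (IsUnit.mk0 _ hs))).mp h2

theorem many_of {n : ℕ} {P Q : (MvPolynomial (Fin (n + 1)) ℤ)[X]} (hSZ : S_SZ)
    (h0 : P.leadingCoeff ≠ 0) (h : ∀ (p : ℕ) [Fact p.Prime] (a : Fin (n + 1) → ZMod p),
      evP p a P.leadingCoeff ≠ 0 → ObsP Q p a → ObsP P p a) (hQ : Many Q) : Many P := by
  classical
  obtain ⟨δ, hδ, hm⟩ := hQ
  obtain ⟨C, hC⟩ := hSZ n P.leadingCoeff h0
  refine ⟨δ / 2, half_pos hδ, fun m => ?_⟩
  obtain ⟨p, hp1, hp2, hp3⟩ := hm (max m (max ⌈C⌉₊ ⌈2 * |C| / δ⌉₊))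
  have : Fact p.Prime := ⟨hp2⟩
  have e1 : m < p := lt_of_le_of_lt (le_max_left _ _) hp1
  have e2 : ⌈C⌉₊ < p := lt_of_le_of_lt ((le_max_left _ _).trans (le_max_right _ _)) hp1
  have e3 : ⌈2 * |C| / δ⌉₊ < p := lt_of_le_of_lt ((le_max_right _ _).trans (le_max_right _ _)) hp1
  have e4 : C < p := lt_of_le_of_lt (Nat.le_ceil _) (by exact_mod_cast e2)
  have e5 : 2 * |C| / δ < p := lt_of_le_of_lt (Nat.le_ceil _) (by exact_mod_cast e3)
  refine ⟨p, e1, hp2, ?_⟩
  have h1 := hC p hp2 e4
  have hsub : ({a : Fin (n + 1) → ZMod p | ObsP Q p a} : Set _) ⊆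
      {a | ObsP P p a} ∪ {a | evP p a P.leadingCoeff = 0} := by
    intro a ha
    by_cases h2 : evP p a P.leadingCoeff = 0
    · right; exact h2
    · left; exact h p a h2 ha
  have h2 := (Set.ncard_le_ncard hsub (Set.toFinite _)).trans (Set.ncard_union_le _ _)
  have h3 := (Nat.cast_le (α := ℝ)).mpr h2
  rw [Nat.cast_add] at h3
  have hp0 : (0 : ℝ) < p := by exact_mod_cast hp2.pos
  have h4 : C * (p : ℝ) ^ n ≤ δ / 2 * (p : ℝ) ^ (n + 1) := by
    have h5 : 2 * |C| < p * δ := by rwa [div_lt_iff₀ hδ] at e5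
    have h6 : C ≤ δ / 2 * p := by
      have := le_abs_self C
      linarith
    rw [pow_succ]
    have h7 := mul_le_mul_of_nonneg_right h6 (pow_nonneg hp0.le n)
    linarith
  linarith

theorem obs5 (h4 : S_OBS4) (hSZ : S_SZ) : S_MANY := by
  intro n P hP
  rcases hP with ⟨G, hG, rfl⟩ | ⟨hd, hirr⟩
  · have h1 : Many (1 : (MvPolynomial (Fin (n + 1)) ℤ)[X]) := by
      refine ⟨1, one_pos, fun m => ?_⟩
      obtain ⟨p, hp1, hp2⟩ := Nat.exists_infinite_primes (m + 1)
      have : Fact p.Prime := ⟨hp2⟩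
      refine ⟨p, by omega, hp2, ?_⟩
      have h2 : ({a : Fin (n + 1) → ZMod p | ObsP (1 : (MvPolynomial (Fin (n + 1)) ℤ)[X]) p a} :
          Set _) = Set.univ := by
        ext a
        simp only [Set.mem_ofPred_eq, Set.mem_univ, iff_true]
        constructor
        · rw [leadingCoeff_one, map_one]
          exact one_ne_zero
        · intro w
          rw [Polynomial.map_one, eval_one]
          exact one_ne_zero
      rw [h2, Set.ncard_univ, Nat.card_eq_fintype_card, Fintype.card_fun, ZMod.card,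
        Fintype.card_fin]
      push_cast
      rw [one_mul]
    refine many_of hSZ (by rwa [leadingCoeff_C]) (fun p _ a ha _ => ⟨ha, fun w => ?_⟩) h1
    rw [map_C, eval_C]
    rwa [leadingCoeff_C] at ha
  · have h0 : P ≠ 0 := by
      rintro rfl
      simp at hd
    have hlc : P.leadingCoeff ≠ 0 := leadingCoeff_ne_zero.mpr h0
    refine many_of hSZ hlc (fun p _ a ha hQ => ⟨ha, fun w hw => ?_⟩)
      (h4 n P.integralNormalization (monic_integralNormalization h0)
        (by rwa [natDegree_integralNormalization]) (irr_norm hlc hirr))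
    have h1 := congrArg (Polynomial.map (evP p a)) (integralNormalization_mul_C_leadingCoeff P)
    rw [Polynomial.map_mul, map_C, map_scaleRoots _ _ _ ha] at h1
    have h2 := congrArg (Polynomial.eval (evP p a P.leadingCoeff * w)) h1
    rw [eval_mul, eval_C, scaleRoots_eval_mul, hw, mul_zero] at h2
    rcases mul_eq_zero.mp h2 with h3 | h3
    · exact hQ.2 _ h3
    · exact ha h3

end Pool.Agent.K3h34.HP.Fb
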