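import Pool.Agent.Y214.HB.Stm
import Mathlib

/-!
# The Hilbert property of random complete intersections: statements of the steps (bricks)

Library: project HB (`Pool.Agent.Y214.HB`, hypersurfaces: one point modulo `p` for each `p` of a large set of
primes). For `s ≥ 2` equations a point modulo `p` is a zero with the probability `p ^ (-s)`, so that we
need many points modulo one prime `p`: for every irreducible cover there are infinitely many primes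
`p` such that a positive proportion of the points `a` modulo `p` does not lift (`S_MANY`; by the theorem of
Landau, Lang and Weil of `Pool.Agent.R410.LW`), and for a random system one of them is a smooth zero
with a probability `≥ 1 - C / p` (`S_ALGS`, second moment).
-/

set_option autoImplicit false

namespace Pool.Agent.K3h34.HP

open Polynomial Filter NumberField
open Pool.Agent.Y214.HB (Obs evQ toK NoRoot Kind Cov S_BOX S_FAC S_LOC S_SCL)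

/-- systems of forms of the degrees `e j + 2` with coefficients at most `H` -/
def Fs {s : ℕ} (n : ℕ) (e : Fin s → ℕ) (H : ℕ) : Set (Fin s → MvPolynomial (Fin (n + 1)) ℤ) :=
  {f | ∀ j, (f j).IsHomogeneous (e j + 2) ∧ ∀ m, |(f j).coeff m| ≤ (H : ℤ)}

/-- `a` is modulo `p` a common zero of the `f j` at which the Jacobian matrix has the rank `s` -/
def TestS {s n : ℕ} (f : Fin s → MvPolynomial (Fin (n + 1)) ℤ) (p : ℕ) (a : Fin (n + 1) → ℤ) :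
    Prop :=
  (∀ j, (p : ℤ) ∣ MvPolynomial.eval a (f j)) ∧
    ∀ l : Fin s → ℤ, (∃ j, ¬ (p : ℤ) ∣ l j) →
      ∃ i, ¬ (p : ℤ) ∣ ∑ j, l j * MvPolynomial.eval a (MvPolynomial.pderiv i (f j))

/-- the same over `ZMod p` -/
def TestP {s n p : ℕ} (f : Fin s → MvPolynomial (Fin (n + 1)) (ZMod p)) (a : Fin (n + 1) → ZMod p) :
    Prop :=
  (∀ j, MvPolynomial.eval a (f j) = 0) ∧
    ∀ l : Fin s → ZMod p, l ≠ 0 →
      ∃ i, ∑ j, l j * MvPolynomial.eval a (MvPolynomial.pderiv i (f j)) ≠ 0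

/-- evaluation at a vector modulo `p` -/
noncomputable def evP {n : ℕ} (p : ℕ) (a : Fin (n + 1) → ZMod p) :
    MvPolynomial (Fin (n + 1)) ℤ →+* ZMod p :=
  MvPolynomial.eval₂Hom (Int.castRingHom (ZMod p)) a

/-- modulo `p` the polynomial `P(a, w)` keeps its degree and has no root -/
def ObsP {n : ℕ} (P : (MvPolynomial (Fin (n + 1)) ℤ)[X]) (p : ℕ) (a : Fin (n + 1) → ZMod p) :
    Prop :=
  evP p a P.leadingCoeff ≠ 0 ∧ ∀ w : ZMod p, (P.map (evP p a)).eval w ≠ 0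

/-- for infinitely many primes `p` a positive proportion of the points modulo `p` is obstructed -/
def Many {n : ℕ} (P : (MvPolynomial (Fin (n + 1)) ℤ)[X]) : Prop :=
  ∃ δ : ℝ, 0 < δ ∧ ∀ m : ℕ, ∃ p : ℕ, m < p ∧ p.Prime ∧
    δ * (p : ℝ) ^ (n + 1) ≤ (({a : Fin (n + 1) → ZMod p | ObsP P p a} : Set _).ncard : ℝ)

/-! ## Points modulo `p` which do not lift -/

/-- the pairs `(a, w)` with `P(a, w) = 0`, `t(a) ≠ 0` -/
def Pts {n : ℕ} (P : (MvPolynomial (Fin (n + 1)) ℤ)[X]) (t : MvPolynomial (Fin (n + 1)) ℤ)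
    (p : ℕ) : Set ((Fin (n + 1) → ZMod p) × ZMod p) :=
  {z | evP p z.1 t ≠ 0 ∧ (P.map (evP p z.1)).eval z.2 = 0}

/-- the triples `(a, w, w')` with `P(a, w) = P(a, w') = 0`, `w ≠ w'` -/
def Prs {n : ℕ} (P : (MvPolynomial (Fin (n + 1)) ℤ)[X]) (p : ℕ) :
    Set ((Fin (n + 1) → ZMod p) × (ZMod p × ZMod p)) :=
  {z | z.2.1 ≠ z.2.2 ∧ (P.map (evP p z.1)).eval z.2.1 = 0 ∧ (P.map (evP p z.1)).eval z.2.2 = 0}

/-- brick OBS1. Apply `Pool.Agent.R410.LW.landau (n + 1) M` to `M = AdjoinRoot (toK P)` (a field of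
transcendence degree `n + 1`, finitely generated) and to the model `B = ` `AdjoinRoot P` (a domain, as `P`
is monic and irreducible over the fraction field; of finite type over `ℤ`), whose homomorphisms to
`ZMod p` are the pairs `(a, w)` with `P(a, w) = 0`. `Landau B (n + 1) L` gives `s₀ ≠ 0` in `B`; every nonzero
element of `B` divides a nonzero element `t` of `ℤ[x]` (norm, or constant term of a minimal relation, `B`
is integral over `ℤ[x]`). -/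
def S_OBS1 : Prop := ∀ (n : ℕ) (P : (MvPolynomial (Fin (n + 1)) ℤ)[X]), P.Monic →
  2 ≤ P.natDegree → Irreducible (toK P) →
  ∃ (L : Type) (_ : Field L) (_ : NumberField L) (t : MvPolynomial (Fin (n + 1)) ℤ) (C : ℝ),
    t ≠ 0 ∧ ∀ p : ℕ, p.Prime → C < p →
      |((Pts P t p).ncard : ℝ) - Nat.card (𝓞 L →+* ZMod p) * (p : ℝ) ^ (n + 1)| * √(p : ℝ) ≤
        C * (p : ℝ) ^ (n + 1)

/-- brick OBS2. Let `θ` be the root of `P` in `M = AdjoinRoot (toK P)`, `Q₁` an irreducible factor of the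
polynomial `P / (X - θ)` over `M` (of degree `≥ 1`), `M₁ = M[X] / Q₁`, `θ'` the root of `Q₁`; `θ ≠ θ'` because `P` is
separable. Apply `landau (n + 1) M₁` to the subring `B₁` of `M₁` generated by the `x i`, `θ` and `θ'`
(`Algebra.adjoin ℤ` of a finite set), which is integral over `ℤ[x]`, and to a nonzero `t ∈ ℤ[x]` which is
divisible in `B₁` by `θ - θ'` and by the `s₀` of `Landau`. A homomorphism `B₁ → ZMod p` with `t ≠ 0` is determined
by the images of the `x i`, `θ`, `θ'`, which form an element of `Prs P p`. -/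
def S_OBS2 : Prop := ∀ (n : ℕ) (P : (MvPolynomial (Fin (n + 1)) ℤ)[X]), P.Monic →
  2 ≤ P.natDegree → Irreducible (toK P) →
  ∃ (L : Type) (_ : Field L) (_ : NumberField L) (C : ℝ), ∀ p : ℕ, p.Prime → C < p →
      Nat.card (𝓞 L →+* ZMod p) * (p : ℝ) ^ (n + 1) * √(p : ℝ) ≤
        ((Prs P p).ncard : ℝ) * √(p : ℝ) + C * (p : ℝ) ^ (n + 1)

/-- brick OBS3 (number fields). (a): take an integral primitive element with minimal polynomial `g` of
degree `≥ 2`; a homomorphism `𝓞 L → ZMod p` gives a root of `g` modulo `p`; `Pool.Agent.Y972.HB.t_NR : S_NR`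
gives infinitely many `p` for which `g` has no root. (b): infinitely many primes divide values `g(w)`;
if `p` does not divide the index (or the discriminant) there is a prime of degree one of `𝓞 L` above
`p`. (There may be such statements in Mathlib or in the library, e.g. totally split primes.) -/
def S_OBS3 : Prop := ∀ (L : Type) [Field L] [NumberField L],
  (2 ≤ Module.finrank ℚ L → ∀ m : ℕ, ∃ p : ℕ, m < p ∧ p.Prime ∧ Nat.card (𝓞 L →+* ZMod p) = 0) ∧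
  (∀ m : ℕ, ∃ p : ℕ, m < p ∧ p.Prime ∧ 1 ≤ Nat.card (𝓞 L →+* ZMod p)) ∧
  (Module.finrank ℚ L = 1 → ∀ p : ℕ, p.Prime → Nat.card (𝓞 L →+* ZMod p) = 1)

/-- brick SZ: the zeros modulo `p` of a nonzero polynomial (Schwartz-Zippel; `p` large so that `t` is
not zero modulo `p`). -/
def S_SZ : Prop := ∀ (n : ℕ) (t : MvPolynomial (Fin (n + 1)) ℤ), t ≠ 0 → ∃ C : ℝ, ∀ p : ℕ, p.Prime →
  C < p → (({a : Fin (n + 1) → ZMod p | evP p a t = 0} : Set _).ncard : ℝ) ≤ C * (p : ℝ) ^ n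

/-- brick OBS4 (from OBS1, OBS2, OBS3, SZ): let `r(a) ≤ N = deg P` be the number of the roots of `P(a, w)`
modulo `p`, `A = {t ≠ 0}`. If `[L : ℚ] ≥ 2` take `p` with no homomorphism: then
`∑_A r(a) = O(p ^ (n + 1 / 2))`. If `[L : ℚ] = 1` take `p` with a homomorphism from `𝓞 L'`, `L'` the field of
OBS2: `∑_A r = p ^ (n + 1) + O(p ^ (n + 1 / 2))`, `∑_A r (r - 1) ≥ p ^ (n + 1) - O(p ^ (n + 1 / 2))` (the triples
over the zeros of `t` are at most `N ^ 2 C p ^ n`), and the number of the `a ∈ A` with `r(a) = 0` is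
`#A - ∑_A r + ∑_A max (r - 1) 0 ≥ #A - ∑_A r + (1 / N) ∑_A r (r - 1)`. -/
def S_OBS4 : Prop := ∀ (n : ℕ) (P : (MvPolynomial (Fin (n + 1)) ℤ)[X]), P.Monic →
  2 ≤ P.natDegree → Irreducible (toK P) → Many P

/-- brick OBS5 (from OBS4, SZ): all kinds. Constants: SZ. Otherwise take for `P` of OBS4 the monic
polynomial `P̃(w) = g ^ (N - 1) P(w / g)`, `g` the leading coefficient (`Polynomial.integralNormalization`); if
`g(a) ≠ 0` a root `w` of `P(a, w)` gives the root `g(a) w` of `P̃(a, w)`. -/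
def S_MANY : Prop := ∀ (n : ℕ) (P : (MvPolynomial (Fin (n + 1)) ℤ)[X]), Kind P → Many P

/-! ## Random systems modulo `p` -/

/-- the system of forms with the coefficients `c` -/
noncomputable def frm {s n : ℕ} {e : Fin s → ℕ} {T : Fin s → Type} [∀ j, Fintype (T j)]
    (u : ∀ j, T j ≃ {u : Fin (n + 1) →₀ ℕ // ∑ i, u i = e j + 2}) {R : Type} [CommRing R]
    (c : (Σ j, T j) → R) (j : Fin s) : MvPolynomial (Fin (n + 1)) R :=
  ∑ t : T j, MvPolynomial.monomial (u j t : Fin (n + 1) →₀ ℕ) (c ⟨j, t⟩)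

/-- brick ONE: one point (compare `Pool.Agent.Y684.HB.Alg`). For `l ≠ 0`, say `l j₀ ≠ 0`, the number of the `c` with
`f j (a) = 0` for all `j` and `∑ l j ∇ f j (a) = 0` is at most `p ^ (|T| - s - n)`: the functionals
`f j₀ ↦ f j₀ (a)` and `f j₀ ↦ ∂_i f j₀ (a)`, `i ≠ i₀`, where `a i₀ ≠ 0`, are linearly independent (test them on the
monomials `x_{i₀} ^ (d - 1) x_i`). There are `p ^ s ≤ p ^ (n - 1)` vectors `l`. -/
def S_ONE : Prop := ∀ (s n : ℕ) (e : Fin s → ℕ), s + 1 ≤ n → ∀ (T : Fin s → Type)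
  [∀ j, Fintype (T j)] (u : ∀ j, T j ≃ {u : Fin (n + 1) →₀ ℕ // ∑ i, u i = e j + 2}) (p : ℕ)
  [Fact p.Prime] (a : Fin (n + 1) → ZMod p), a ≠ 0 →
  (1 - 1 / (p : ℝ)) * (p : ℝ) ^ Fintype.card (Σ j, T j) ≤
    (p : ℝ) ^ s * (({c : (Σ j, T j) → ZMod p | TestP (frm u c) a} : Set _).ncard : ℝ) ∧
  (p : ℝ) ^ s * (({c : (Σ j, T j) → ZMod p | ∀ j, MvPolynomial.eval a (frm u c j) = 0} :
    Set _).ncard : ℝ) = (p : ℝ) ^ Fintype.card (Σ j, T j)

/-- brick TWO: two points. There is a form with `f(a) = 1`, `f(b) = 0`: a power of a linear form. -/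
def S_TWO : Prop := ∀ (s n : ℕ) (e : Fin s → ℕ) (T : Fin s → Type)
  [∀ j, Fintype (T j)] (u : ∀ j, T j ≃ {u : Fin (n + 1) →₀ ℕ // ∑ i, u i = e j + 2}) (p : ℕ)
  [Fact p.Prime] (a b : Fin (n + 1) → ZMod p), a ≠ 0 → (∀ k : ZMod p, b ≠ k • a) →
  (p : ℝ) ^ (2 * s) * (({c : (Σ j, T j) → ZMod p | ∀ j, MvPolynomial.eval a (frm u c j) = 0 ∧
    MvPolynomial.eval b (frm u c j) = 0} : Set _).ncard : ℝ) = (p : ℝ) ^ Fintype.card (Σ j, T j)

/-- brick ALGS (from ONE and TWO), second moment. Take a maximal set `S' ⊆ S` of nonzero pairwise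
nonproportional vectors, `#S' ≥ (#S - 1) / (p - 1)`, `μ = #S' p ^ (-s)`, `X(c)` the number of the `a ∈ S'` with
`TestP (frm u c) a`. With means over all `c`: `E X ≥ μ (1 - 1 / p)`, `E X ^ 2 ≤ μ + μ ^ 2`,
`P(X > 0) ≥ (E X) ^ 2 / E X ^ 2` (Cauchy-Schwarz), so `P(X = 0) ≤ 2 / p + 1 / μ`, and `μ ≥ (δ / 2) p ^ (n - s)` if
`δ p ^ (n + 1) ≥ 2`. -/
def S_ALGS : Prop := ∀ (s n : ℕ) (e : Fin s → ℕ), s + 1 ≤ n → ∀ (T : Fin s → Type)
  [∀ j, Fintype (T j)] (u : ∀ j, T j ≃ {u : Fin (n + 1) →₀ ℕ // ∑ i, u i = e j + 2}) (δ : ℝ),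
  0 < δ → ∃ C : ℝ, 0 < C ∧ ∀ (p : ℕ) [Fact p.Prime] (S : Set (Fin (n + 1) → ZMod p)),
  δ * (p : ℝ) ^ (n + 1) ≤ (S.ncard : ℝ) →
  (({c : (Σ j, T j) → ZMod p | ¬ ∃ a ∈ S, TestP (frm u c) a} : Set _).ncard : ℝ) ≤
    C / p * (p : ℝ) ^ Fintype.card (Σ j, T j)

/-- brick DENS (from ALGS and `S_BOX`, with one prime `A = {p}`; compare `Pool.Agent.Y994.HB.Den`). -/
def S_DENS : Prop := ∀ (s n : ℕ) (e : Fin s → ℕ), s + 1 ≤ n → ∀ δ : ℝ, 0 < δ →
  ∀ ε : ℝ, 0 < ε → ∃ p₀ : ℕ, ∀ p : ℕ, p₀ ≤ p → p.Prime → ∀ S : Set (Fin (n + 1) → ZMod p),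
  δ * (p : ℝ) ^ (n + 1) ≤ (S.ncard : ℝ) → ∃ H₀ : ℕ, ∀ H : ℕ, H₀ ≤ H →
    (({f | f ∈ Fs n e H ∧ ¬ ∃ a : Fin (n + 1) → ℤ, (fun i => (a i : ZMod p)) ∈ S ∧
      TestS f p a} : Set _).ncard : ℝ) ≤ ε * ((Fs n e H).ncard : ℝ)

/-- `f` passes the tests at distinct primes between `m` and `M` for factors of `P` -/
def TestedS {s n : ℕ} (m M : ℕ) (f : Fin s → MvPolynomial (Fin (n + 1)) ℤ)
    (P : (MvPolynomial (Fin (n + 1)) ℤ)[X]) : Prop :=
  ∃ (k : ℕ) (Q : Fin k → (MvPolynomial (Fin (n + 1)) ℤ)[X]) (c : MvPolynomial (Fin (n + 1)) ℤ)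
    (l : Fin k → ℕ) (a : Fin k → Fin (n + 1) → ℤ), C c * P = ∏ i, Q i ∧
    Function.Injective l ∧ ∀ i, (l i).Prime ∧ m < l i ∧ l i ≤ M ∧ Obs (Q i) (l i) (a i) ∧
      TestS f (l i) (a i)

/-- brick TSTD (from DENS, MANY, `S_FAC`; compare `Pool.Agent.Y214.HB.tests_all`, `tested_all` in
`Pool/Agent/Y214/HB/Asm1.lean`): choose for the factors `Q 0, Q 1, …` of `S_FAC` one after the other a prime, each
larger than the ones before. -/
def S_TSTD : Prop := ∀ (s n : ℕ) (e : Fin s → ℕ), s + 1 ≤ n →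
  ∀ P : (MvPolynomial (Fin (n + 1)) ℤ)[X], NoRoot P → ∀ (m : ℕ) (ε : ℝ), 0 < ε →
    ∃ M H₀ : ℕ, m ≤ M ∧ 2 ≤ M ∧ ∀ H : ℕ, H₀ ≤ H →
      (({f | f ∈ Fs n e H ∧ ¬ TestedS m M f P} : Set _).ncard : ℝ) ≤ ε * ((Fs n e H).ncard : ℝ)

/-! ## Local points -/

/-- brick HENS (compare `Pool.Agent.Y70.HB.Hen`): Hensel for systems. A minor of the Jacobian matrix with `s`
columns `i ∈ I` is a unit modulo `p`; keep the coordinates outside `I`, and solve for the others by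
Newton iteration (or by successive approximation) in `ℤ_[p]`. -/
def S_HENS : Prop := ∀ (s n : ℕ) (e : Fin s → ℕ) (f : Fin s → MvPolynomial (Fin (n + 1)) ℤ) (p : ℕ)
  [Fact p.Prime] (a : Fin (n + 1) → ℤ), 1 ≤ s → (∀ j, (f j).IsHomogeneous (e j + 2)) →
  TestS f p a → ∃ z : Fin (n + 1) → ℚ_[p], z ≠ 0 ∧ (∀ j, MvPolynomial.aeval z (f j) = 0) ∧
    ‖z‖ ≤ 1 ∧ ∀ i, ‖z i - (a i : ℚ_[p])‖ < 1

/-- weak approximation to precision `1 / m` (this is `Pool.Agent.Y716.C.WeakApproxS`) -/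
def WAS {s n : ℕ} (m : ℕ) (f : Fin s → MvPolynomial (Fin (n + 1)) ℤ) : Prop :=
  ∀ (z : ∀ (p : ℕ) [Fact p.Prime], Fin (n + 1) → ℚ_[p]) (y : Fin (n + 1) → ℝ),
    (∀ (p : ℕ) [Fact p.Prime], z p ≠ 0 ∧ ∀ j, MvPolynomial.aeval (z p) (f j) = 0) → y ≠ 0 →
    (∀ j, MvPolynomial.aeval y (f j) = 0) →
    ∃ x : Fin (n + 1) → ℚ, x ≠ 0 ∧ (∀ j, MvPolynomial.aeval x (f j) = 0) ∧
      (∀ (p : ℕ) [Fact p.Prime], p ≤ m → ∃ c : ℚ_[p], c ≠ 0 ∧
        ∀ i, ‖z p i - c * (x i : ℚ_[p])‖ ≤ ‖z p‖ / m) ∧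
      ∃ c : ℝ, c ≠ 0 ∧ ∀ i, |y i - c * (x i : ℝ)| ≤ ‖y‖ / m

/-- the same by points `x` such that `P(x, w)` has no rational root `w` -/
def WAPS {s n : ℕ} (m : ℕ) (f : Fin s → MvPolynomial (Fin (n + 1)) ℤ)
    (P : (MvPolynomial (Fin (n + 1)) ℤ)[X]) : Prop :=
  ∀ (z : ∀ (p : ℕ) [Fact p.Prime], Fin (n + 1) → ℚ_[p]) (y : Fin (n + 1) → ℝ),
    (∀ (p : ℕ) [Fact p.Prime], z p ≠ 0 ∧ ∀ j, MvPolynomial.aeval (z p) (f j) = 0) → y ≠ 0 →
    (∀ j, MvPolynomial.aeval y (f j) = 0) →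
    ∃ x : Fin (n + 1) → ℚ, x ≠ 0 ∧ (∀ j, MvPolynomial.aeval x (f j) = 0) ∧
      (∀ (p : ℕ) [Fact p.Prime], p ≤ m → ∃ c : ℚ_[p], c ≠ 0 ∧
        ∀ i, ‖z p i - c * (x i : ℚ_[p])‖ ≤ ‖z p‖ / m) ∧
      (∃ c : ℝ, c ≠ 0 ∧ ∀ i, |y i - c * (x i : ℝ)| ≤ ‖y‖ / m) ∧
      ∀ w : ℚ, (P.map (evQ x)).eval w ≠ 0

/-- brick FIXS (from HENS, `S_LOC`, `S_SCL`; adapt `Pool/Agent/Y67/HB/Fix.lean`). -/
def S_FIXS : Prop := ∀ (s n m M : ℕ) (e : Fin s → ℕ) (f : Fin s → MvPolynomial (Fin (n + 1)) ℤ)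
  (P : (MvPolynomial (Fin (n + 1)) ℤ)[X]), 1 ≤ s → 1 ≤ m → m ≤ M → 2 ≤ M →
    (∀ j, (f j).IsHomogeneous (e j + 2)) → WAS M f → TestedS m M f P → WAPS m f P

end Pool.Agent.K3h34.HP
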