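import Pool.Agent.K3h34.HP.Asm
import Pool.Agent.K3h55.HP.OBS1
import Pool.Agent.K3h79.HP.OBS2
import Pool.Agent.K3h64.HP.OBS3
import Pool.Agent.K3h85.HP.OBS4
import Pool.Agent.K3h34.HP.SZ
import Pool.Agent.K3h85.HP.ONE
import Pool.Agent.K3h93.HP.TWO
import Pool.Agent.K3h20.HP.ALGS
import Pool.Agent.K3h40.HP.DENS
import Pool.Agent.K3h40.HP.TSTD
import Pool.Agent.K3h99.HP.HENS
import Pool.Agent.K3h97.HP.FIXS

/-!
# The Hilbert property of random complete intersections: all the parts together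

Points without lifts by helpers 55, 79, 64, 85; counting by helpers 85, 93, 20, 40; local points by
helpers 99, 97.
-/

set_option autoImplicit false

namespace Pool.Agent.K3h34.HP

theorem many : S_MANY :=
  Fb.obs5 (Pool.Agent.K3h85.HP.t_OBS4 t_OBS1 Pool.Agent.K3h79.HP.t_OBS2 t_OBS3 Fb.sz) Fb.sz

theorem dens : S_DENS :=
  t_DENS (Pool.Agent.K3h20.HP.t_ALGS Pool.Agent.K3h85.HP.One.t_ONE t_TWO)

theorem tstd : S_TSTD := t_TSTD dens many

theorem fixs : S_FIXS := Pool.Agent.K3h97.HP.t_FIXS Pool.Agent.K3h99.HP.t_HENS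

end Pool.Agent.K3h34.HP
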