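import Pool.Agent.K3h34.HP.Stm
import Pool.Agent.Y214.HB.Asm2
import Pool.Agent.Y716.D.Main

/-!
# The Hilbert property of random complete intersections: the theorem from the parts
-/

set_option autoImplicit false

namespace Pool.Agent.K3h34.HP

open Polynomial Filter Topology
open Pool.Agent.Y716.Q Pool.Agent.Y716.C
open Pool.Agent.Y214.HB (S_FIN Ptot NoRoot diag_abs ptot_noRoot)

theorem card_fs {s n : ℕ} {e : Fin s → ℕ} (H : ℕ)
    (Q : (Fin s → MvPolynomial (Fin (n + 1)) ℤ) → Prop) {_hq : DecidablePred Q} :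
    ({f | f ∈ Fs n e H ∧ Q f} : Set _).ncard =
      ((sysZ (Fin (n + 1)) e (H : ℝ)).filter Q).card := by
  rw [← Pool.Agent.Y438.C.ncard_eq_filterS]
  congr 1
  ext f
  simp only [Set.mem_ofPred_eq, isF_iff]
  exact Iff.rfl

theorem card_fs_tot {s n : ℕ} {e : Fin s → ℕ} (H : ℕ) :
    (Fs n e H).ncard = (sysZ (Fin (n + 1)) e (H : ℝ)).card := by
  classical
  have h1 := card_fs (e := e) (_hq := fun _ => Classical.propDecidable _) H
    (fun _ : Fin s → MvPolynomial (Fin (n + 1)) ℤ => True)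
  simp only [and_true, Finset.filter_true] at h1
  exact h1

theorem fs_finite {s n : ℕ} (e : Fin s → ℕ) (H : ℕ) : (Fs n e H).Finite := by
  refine (Finset.finite_toSet (sysZ (Fin (n + 1)) e (H : ℝ))).subset ?_
  intro f hf
  rw [Finset.mem_coe, mem_sysZ]
  intro j
  rw [isF_iff]
  exact hf j

theorem one_fac {s n : ℕ} {e : Fin s → ℕ} (hs : 1 ≤ s) (hn : 3 ≤ n) (h : ∑ j, (e j + 2) ≤ n) :
    s + 1 ≤ n := by
  have h1 := (Pool.Agent.Y716.D.dims hs hn h).1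
  rw [Fintype.card_fin] at h1
  omega

section
variable {s n : ℕ} {e : Fin s → ℕ} (hs : 1 ≤ s) (hn : 3 ≤ n) (hd : ∑ j, (e j + 2) ≤ n)
include hs hn hd

theorem wa_bad (m : ℕ) (hm : 1 ≤ m) (ε : ℝ) (hε : 0 < ε) :
    ∃ H₀ : ℕ, ∀ H : ℕ, H₀ ≤ H →
      (({f | f ∈ Fs n e H ∧ ¬ WAS m f} : Set _).ncard : ℝ) ≤ ε * ((Fs n e H).ncard : ℝ) := by
  classical
  have hdim := Pool.Agent.Y716.D.dims hs hn hd
  have hexc : ExcStmtS (Fin (n + 1)) e :=
    Pool.Agent.Y716.D.exc_all (Fin (n + 1)) hs hdim.1 e hdim.2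
  obtain ⟨H₀, hH₀⟩ := Pool.Agent.Y438.C.wa_excS (Fin (n + 1)) e hexc hm hε
  refine ⟨⌈H₀⌉₊, fun H hH => ?_⟩
  have h1 := hH₀ (H : ℝ) ((Nat.le_ceil _).trans (by exact_mod_cast hH))
  rw [card_fs (_hq := fun _ => Classical.propDecidable _) H (fun f => ¬ WAS m f), card_fs_tot]
  convert h1
  exact Iff.rfl

theorem pos_els : ∃ c : ℝ, 0 < c ∧ ∃ H₁ : ℕ, ∀ H : ℕ, H₁ ≤ H →
    c * ((Fs n e H).ncard : ℝ) ≤ (({f | f ∈ Fs n e H ∧ ElsS f} : Set _).ncard : ℝ) := by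
  classical
  have hdim := Pool.Agent.Y716.D.dims hs hn hd
  obtain ⟨c, hc, H₁, hH₁⟩ := Pool.Agent.Y716.D.pos_all (Fin (n + 1)) hs hdim.1 e hdim.2
  refine ⟨c, hc, ⌈H₁⌉₊, fun H hH => ?_⟩
  have h1 := hH₁ (H : ℝ) ((Nat.le_ceil _).trans (by exact_mod_cast hH))
  rw [card_fs (_hq := fun _ => Classical.propDecidable _) H ElsS, card_fs_tot]
  refine h1.trans ?_
  exact card_filter_le' _ _ _ (fun f _ hf => Pool.Agent.Y438.C.els_of_zero hf)

/-- Almost all systems have the property `WAPS`. -/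
theorem wap_bad (hTSTD : S_TSTD) (hFIX : S_FIXS)
    (P : (MvPolynomial (Fin (n + 1)) ℤ)[X]) (hP : NoRoot P) (m : ℕ) (hm : 1 ≤ m) (ε : ℝ)
    (hε : 0 < ε) : ∃ H₀ : ℕ, ∀ H : ℕ, H₀ ≤ H →
      (({f | f ∈ Fs n e H ∧ ¬ WAPS m f P} : Set _).ncard : ℝ) ≤ ε * ((Fs n e H).ncard : ℝ) := by
  obtain ⟨M, H₁, hM, hM2, hH₁⟩ := hTSTD s n e (one_fac hs hn hd) P hP m (ε / 2) (half_pos hε)
  obtain ⟨H₂, hH₂⟩ := wa_bad hs hn hd M (by omega) (ε / 2) (half_pos hε)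
  refine ⟨max H₁ H₂, fun H hH => ?_⟩
  have e1 := hH₁ H ((le_max_left _ _).trans hH)
  have e2 := hH₂ H ((le_max_right _ _).trans hH)
  have hsub : {f | f ∈ Fs n e H ∧ ¬ WAPS m f P} ⊆
      {f | f ∈ Fs n e H ∧ ¬ TestedS m M f P} ∪ {f | f ∈ Fs n e H ∧ ¬ WAS M f} := by
    rintro f ⟨hf, hno⟩
    by_cases ht : TestedS m M f P
    · right
      exact ⟨hf, fun hw => hno (hFIX s n m M e f P hs hm hM hM2 (fun j => (hf j).1) hw ht)⟩
    · left
      exact ⟨hf, ht⟩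
  have h5 := (Set.ncard_le_ncard hsub (((fs_finite e H).subset (fun f hf => hf.1)).union
    ((fs_finite e H).subset (fun f hf => hf.1)))).trans (Set.ncard_union_le _ _)
  have h7 := (Nat.cast_le (α := ℝ)).mpr h5
  rw [Nat.cast_add] at h7
  linarith

/-- The theorem, from the parts. -/
theorem main_of (hTSTD : S_TSTD) (hFIX : S_FIXS) (hFIN : S_FIN) :
    ∃ m : ℕ → ℕ, Tendsto m atTop atTop ∧
      Tendsto (fun H : ℕ =>
        (({f | f ∈ Fs n e H ∧ Pool.Agent.Y697.C13.SmoothS f ∧ ElsS f ∧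
            WAPS (m H) f (Ptot hFIN n (m H))} : Set _).ncard : ℝ) /
        (({f | f ∈ Fs n e H ∧ Pool.Agent.Y697.C13.SmoothS f ∧ ElsS f} : Set _).ncard : ℝ))
        atTop (𝓝 1) := by
  classical
  have hdim := Pool.Agent.Y716.D.dims hs hn hd
  obtain ⟨c, hc, hpos⟩ := pos_els hs hn hd
  have hT : ∀ H : ℕ, (0 : ℝ) < ((Fs n e H).ncard : ℝ) := by
    intro H
    rw [card_fs_tot]
    exact_mod_cast Pool.Agent.Y438.C.card_sysZ_pos (ι := Fin (n + 1)) e (Nat.cast_nonneg H)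
  obtain ⟨M, hM, hlim⟩ := diag_abs
    (T := fun H => ((Fs n e H).ncard : ℝ))
    (b := fun H => (({f | f ∈ Fs n e H ∧ ElsS f} : Set _).ncard : ℝ))
    (a := fun m H => (({f | f ∈ Fs n e H ∧ ElsS f ∧ WAPS m f (Ptot hFIN n m)} : Set _).ncard : ℝ))
    (bad := fun m H => (({f | f ∈ Fs n e H ∧ ¬ WAPS m f (Ptot hFIN n m)} : Set _).ncard : ℝ))
    hT hc hpos
    (fun m H => by
      have : {f | f ∈ Fs n e H ∧ ElsS f ∧ WAPS m f (Ptot hFIN n m)} ⊆
          {f | f ∈ Fs n e H ∧ ElsS f} :=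
        fun f hf => ⟨hf.1, hf.2.1⟩
      exact_mod_cast Set.ncard_le_ncard this ((fs_finite e H).subset (fun f hf => hf.1)))
    (fun m H => by
      have hsub : {f | f ∈ Fs n e H ∧ ElsS f} ⊆
          {f | f ∈ Fs n e H ∧ ElsS f ∧ WAPS m f (Ptot hFIN n m)} ∪
          {f | f ∈ Fs n e H ∧ ¬ WAPS m f (Ptot hFIN n m)} := by
        rintro f ⟨hf, he⟩
        by_cases hw : WAPS m f (Ptot hFIN n m)
        · left; exact ⟨hf, he, hw⟩
        · right; exact ⟨hf, hw⟩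
      have h5 := (Set.ncard_le_ncard hsub (((fs_finite e H).subset (fun f hf => hf.1)).union
        ((fs_finite e H).subset (fun f hf => hf.1)))).trans (Set.ncard_union_le _ _)
      have h7 := (Nat.cast_le (α := ℝ)).mpr h5
      rw [Nat.cast_add] at h7
      exact h7)
    (fun m hm ε hε => wap_bad hs hn hd hTSTD hFIX _ (ptot_noRoot hFIN n m) m hm ε hε)
  refine ⟨M, hM, ?_⟩
  exact smooth_ratio (Fin (n + 1)) e
    (Pool.Agent.Y716.D.pos_all (Fin (n + 1)) hs hdim.1 e hdim.2)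
    (fun H g => ElsS g ∧ WAPS (M H) g (Ptot hFIN n (M H))) (fun H g _ h => h.1) hlim

end

end Pool.Agent.K3h34.HP
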